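import Mathlib

set_option autoImplicit false

namespace Pool.Agent.Results.MP_88b6d1_co.Exact

open Finset

/-- the 0-1 matrix of a transformation -/
def trMat {n : ℕ} (f : Fin n → Fin n) : Matrix (Fin n) (Fin n) ℕ :=
  Matrix.of fun i j => if f i = j then 1 else 0

/-- `k` matrices, each a transformation matrix or a transposed one, whose Boolean sum has a `1`
at every position `(i, j)` with `i ≤ j` -/
def Covers (n k : ℕ) : Prop :=
  ∃ A : Fin k → Matrix (Fin n) (Fin n) ℕ,
    (∀ l, ∃ f : Fin n → Fin n, A l = trMat f ∨ A l = (trMat f).transpose) ∧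
    ∀ i j : Fin n, i ≤ j → ∃ l, A l i j = 1

lemma sumf (p c t : ℕ) (ht : t ≤ c) :
    2 * ∑ i ∈ range (p + t), (p + c - max i p) + t * t = 2 * (p + t) * c + t := by
  induction t with
  | zero =>
    have : ∀ i ∈ range p, p + c - max i p = c := by
      intro i hi
      have := mem_range.1 hi
      omega
    simp only [add_zero]
    rw [sum_congr rfl this]
    simp; ring
  | succ t ih =>
    have h := ih (by omega)
    rw [← add_assoc, sum_range_succ]
    obtain ⟨e, rfl⟩ : ∃ e, c = t + e := ⟨c - t, by omega⟩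
    have : p + (t + e) - max (p + t) p = e := by omega
    rw [this]
    nlinarith

lemma lower {n k : ℕ} (h : Covers n k) : ∃ a b, a + b = k ∧ ∀ p c t, p + c = n → t ≤ c →
    2 * (p + t) * c + t ≤ 2 * (a * (p + t) + b * c) + t * t := by
  classical
  obtain ⟨A, hA, hc⟩ := h
  choose f hf using hA
  let P : Finset (Fin k) := univ.filter (fun l => A l = trMat (f l))
  refine ⟨P.card, Pᶜ.card, by simp, ?_⟩
  rintro p c t hn ht
  rw [← sumf p c t ht]
  let X : Finset (Σ _ : ℕ, ℕ) := (range (p + t)).sigma (fun i => Ico (max i p) (p + c))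
  have hX : X.card = ∑ i ∈ range (p + t), (p + c - max i p) := by
    simp [X, card_sigma]
  let g : Fin k → ℕ → ℕ := fun l i => if h : i < n then (f l ⟨i, h⟩ : ℕ) else 0
  have hsub : X ⊆ ((P ×ˢ range (p + t)).image (fun x => (⟨x.2, g x.1 x.2⟩ : Σ _ : ℕ, ℕ))) ∪
      ((Pᶜ ×ˢ Ico p (p + c)).image (fun x => (⟨g x.1 x.2, x.2⟩ : Σ _ : ℕ, ℕ))) := by
    rintro ⟨i, j⟩ hx
    simp only [X, mem_sigma, mem_range, mem_Ico] at hx
    have hi : i < n := by omega
    have hj : j < n := by omega
    obtain ⟨l, hl⟩ := hc ⟨i, hi⟩ ⟨j, hj⟩ (by simp only [Fin.mk_le_mk]; omega)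
    by_cases hP : l ∈ P
    · have e : A l = trMat (f l) := by simpa [P] using hP
      rw [e] at hl
      have e2 : f l ⟨i, hi⟩ = ⟨j, hj⟩ := by
        by_contra hne
        simp [trMat, hne] at hl
      refine mem_union_left _ (mem_image.2 ⟨(l, i), by simp [hP, hx.1], ?_⟩)
      simp [g, hi, e2]
    · have e : A l = (trMat (f l)).transpose := (hf l).resolve_left (by simpa [P] using hP)
      rw [e] at hl
      have e2 : f l ⟨j, hj⟩ = ⟨i, hi⟩ := by
        by_contra hne
        simp [trMat, hne] at hl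
      refine mem_union_right _ (mem_image.2 ⟨(l, j), ?_, ?_⟩)
      · simp only [mem_product, mem_compl, mem_Ico]
        exact ⟨hP, by omega, by omega⟩
      · simp [g, hj, e2]
  have h1 := (card_le_card hsub).trans (card_union_le _ _)
  have h2 := card_image_le (s := P ×ˢ range (p + t))
    (f := fun x => (⟨x.2, g x.1 x.2⟩ : Σ _ : ℕ, ℕ))
  have h3 := card_image_le (s := Pᶜ ×ˢ Ico p (p + c))
    (f := fun x => (⟨g x.1 x.2, x.2⟩ : Σ _ : ℕ, ℕ))
  simp only [card_product, card_range, Nat.card_Ico, Nat.add_sub_cancel_left] at h2 h3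
  omega

lemma arith (n u a b r c t x : ℤ) (hu : u * u ≤ 2 * n * n + 2 * n + 1) (hk : a + b + u = 2 * n + 1)
    (hd : a = b ∨ a = b + 1) (hn : 0 ≤ n) (hb : 0 ≤ b) (hr : 0 ≤ r) (hc : 0 ≤ c) (ht0 : 0 ≤ t)
    (ht : r + c ≤ n + t) (hx : 2 * x + t * t ≤ 2 * r * c + t) : x ≤ a * r + b * c := by
  have htt : 0 ≤ t * t - t := by nlinarith [mul_self_nonneg (2 * t - 1), sq_nonneg t, mul_nonneg ht0 ht0, Int.le_self_sq t]
  by_cases hs : r + c ≤ n
  · have h2 : 2 * u ≤ 3 * n + 2 := by nlinarith
    have hx' : x ≤ r * c := by nlinarith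
    have h3 : r + c ≤ 2 * (a + b) := by omega
    by_cases h4 : r ≤ b
    · nlinarith [mul_nonneg hr (show 0 ≤ a by omega), mul_nonneg hc (show 0 ≤ b - r by omega)]
    by_cases h5 : c ≤ a
    · nlinarith [mul_nonneg hr (show 0 ≤ a - c by omega), mul_nonneg hc hb]
    have h6 : (r - b) * (c - a) ≤ a * b := by
      have h7 : (r - b) * (c - a) ≤ (r - b) * (a + b - (r - b)) :=
        mul_le_mul_of_nonneg_left (by omega) (by omega)
      have h8 : 0 ≤ (r - b - a) * (r - b - b) := by
        rcases hd with h | h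
        · rw [h]; exact mul_self_nonneg _
        · by_cases h9 : r - b - b ≤ 0
          · exact mul_nonneg_of_nonpos_of_nonpos (by omega) h9
          · exact mul_nonneg (by omega) (by omega)
      nlinarith
    nlinarith
  · have h1 : (r + c - n) * (r + c - n) - (r + c - n) ≤ t * t - t := by
      nlinarith [mul_nonneg (show 0 ≤ t - (r + c - n) by omega) (show 0 ≤ t + (r + c - n) - 1 by omega)]
    rcases hd with h | h
    · subst h
      have h2 : 1 ≤ (r + c - u) * (r + c - u) + (c - r) * (c - r) := by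
        by_cases h3 : c - r = 0
        · have h4 : r + c - u ≠ 0 := by omega
          nlinarith [mul_self_pos.2 h4, mul_self_nonneg (c - r)]
        · nlinarith [mul_self_pos.2 h3, mul_self_nonneg (r + c - u)]
      have hu' : u = 2 * n + 1 - 2 * a := by omega
      subst hu'
      nlinarith
    · subst h
      have h2 : 1 ≤ (r + c - u) * (r + c - u) + (c - 1 - r) * (c - 1 - r) := by
        by_cases h3 : c - 1 - r = 0
        · have h4 : r + c - u ≠ 0 := by omega
          nlinarith [mul_self_pos.2 h4, mul_self_nonneg (c - 1 - r)]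
        · nlinarith [mul_self_pos.2 h3, mul_self_nonneg (r + c - u)]
      have hu' : u = 2 * (n - b) := by omega
      subst hu'
      have h5 : 2 * ((n - b) * (n - b)) ≤ n * n + n := by
        have : 4 * ((n - b) * (n - b)) ≤ 2 * (n * n + n) + 1 := by nlinarith
        omega
      nlinarith

lemma count {n : ℕ} (X : Finset {x : Fin n × Fin n // x.1 ≤ x.2}) (R C : Finset (Fin n))
    (hR : ∀ x ∈ X, x.1.1 ∈ R) (hC : ∀ x ∈ X, x.1.2 ∈ C) :
    2 * X.card + (R ∩ C).card * (R ∩ C).card ≤ 2 * R.card * C.card + (R ∩ C).card := by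
  classical
  set T := R ∩ C with hT
  let Y := T.offDiag.filter (fun y => y.2 < y.1)
  have hY : T.offDiag.card ≤ 2 * Y.card := by
    have : T.offDiag ⊆ Y ∪ Y.image Prod.swap := by
      rintro ⟨i, j⟩ hij
      have hij' := mem_offDiag.1 hij
      rcases lt_or_gt_of_ne hij'.2.2 with h | h
      · exact mem_union_right _ (mem_image.2 ⟨(j, i), mem_filter.2 ⟨mem_offDiag.2
          ⟨hij'.2.1, hij'.1, hij'.2.2.symm⟩, h⟩, rfl⟩)
      · exact mem_union_left _ (mem_filter.2 ⟨hij, h⟩)
    have h1 := (card_le_card this).trans (card_union_le _ _)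
    have h2 := card_image_le (s := Y) (f := Prod.swap)
    omega
  have hdisj : Disjoint (X.map (Function.Embedding.subtype _)) Y := by
    rw [disjoint_left]
    intro y hy hy'
    obtain ⟨x, _, rfl⟩ := mem_map.1 hy
    exact absurd (mem_filter.1 hy').2 (not_lt.2 x.2)
  have hsub : (X.map (Function.Embedding.subtype _)) ∪ Y ⊆ R ×ˢ C := by
    intro y hy
    rcases mem_union.1 hy with h | h
    · obtain ⟨x, hx, rfl⟩ := mem_map.1 h
      exact mem_product.2 ⟨hR x hx, hC x hx⟩
    · have := mem_offDiag.1 (mem_filter.1 h).1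
      exact mem_product.2 ⟨(mem_inter.1 this.1).1, (mem_inter.1 this.2.1).2⟩
  have h3 := card_le_card hsub
  rw [card_union_of_disjoint hdisj, card_map, card_product] at h3
  rw [offDiag_card] at hY
  have h4 : T.card ≤ T.card * T.card := Nat.le_mul_self _
  rw [mul_assoc]
  omega

lemma upper (n u a b : ℕ) (hu : u * u ≤ 2 * n * n + 2 * n + 1) (hk : a + b + u = 2 * n + 1)
    (hd : a = b ∨ a = b + 1) : Covers n (a + b) := by
  classical
  let t : {x : Fin n × Fin n // x.1 ≤ x.2} → Finset ((Fin a ⊕ Fin b) × Fin n) := fun x =>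
    univ.filter (fun y => (y.1.isLeft ∧ y.2 = x.1.1) ∨ (y.1.isRight ∧ y.2 = x.1.2))
  have hall : ∀ X : Finset {x : Fin n × Fin n // x.1 ≤ x.2}, X.card ≤ (X.biUnion t).card := by
    intro X
    let R := X.image (fun x => x.1.1)
    let C := X.image (fun x => x.1.2)
    have h1 := count X R C (fun x hx => mem_image_of_mem _ hx) (fun x hx => mem_image_of_mem _ hx)
    have h2 : R.card + C.card ≤ n + (R ∩ C).card := by
      have := card_union_add_card_inter R C
      have h3 : (R ∪ C).card ≤ n := by simpa using card_le_univ (R ∪ C)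
      omega
    have h4 := arith n u a b R.card C.card (R ∩ C).card X.card (by exact_mod_cast hu)
      (by exact_mod_cast hk) (by exact_mod_cast hd) (by positivity) (by positivity) (by positivity)
      (by positivity) (by positivity) (by exact_mod_cast h2) (by exact_mod_cast h1)
    have h5 : X.card ≤ a * R.card + b * C.card := by exact_mod_cast h4
    have h6 : (((univ : Finset (Fin a)) ×ˢ R).disjSum ((univ : Finset (Fin b)) ×ˢ C)).card ≤
        (X.biUnion t).card := by
      apply card_le_card_of_injOn (fun z => (Equiv.sumProdDistrib _ _ _).symm z)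
      · rintro (⟨l, i⟩ | ⟨l, j⟩) hz
        · have hz' : i ∈ R := by simpa using hz
          obtain ⟨x, hx, rfl⟩ := mem_image.1 hz'
          exact mem_coe.2 (mem_biUnion.2 ⟨x, hx, by simp [t]⟩)
        · have hz' : j ∈ C := by simpa using hz
          obtain ⟨x, hx, rfl⟩ := mem_image.1 hz'
          exact mem_coe.2 (mem_biUnion.2 ⟨x, hx, by simp [t]⟩)
      · exact (Equiv.injective _).injOn
    simp only [card_disjSum, card_product, card_univ, Fintype.card_fin] at h6
    omega
  obtain ⟨φ, hφi, hφ⟩ := (all_card_le_biUnion_card_iff_exists_injective t).1 hall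
  let f : (Fin a ⊕ Fin b) → Fin n → Fin n := fun l i =>
    if h : ∃ x, φ x = (l, i) then (if l.isLeft then h.choose.1.2 else h.choose.1.1) else i
  have hf : ∀ x, f (φ x).1 (φ x).2 = if (φ x).1.isLeft then x.1.2 else x.1.1 := by
    intro x
    have h : ∃ y, φ y = ((φ x).1, (φ x).2) := ⟨x, rfl⟩
    have : h.choose = x := hφi h.choose_spec
    simp only [f, dif_pos h, this]
  refine ⟨fun l => if (finSumFinEquiv.symm l).isLeft then trMat (f (finSumFinEquiv.symm l))
    else (trMat (f (finSumFinEquiv.symm l))).transpose, fun l => ⟨f (finSumFinEquiv.symm l), ?_⟩, ?_⟩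
  · by_cases h : (finSumFinEquiv.symm l).isLeft <;> simp [h]
  · intro i j hij
    refine ⟨finSumFinEquiv (φ ⟨(i, j), hij⟩).1, ?_⟩
    have h1 := hφ ⟨(i, j), hij⟩
    have h2 := hf ⟨(i, j), hij⟩
    simp only [t, mem_filter, mem_univ, true_and] at h1
    simp only [Equiv.symm_apply_apply]
    rcases h1 with ⟨h3, h4⟩ | ⟨h3, h4⟩
    · rw [h4] at h2
      simp only [h3, if_true] at h2 ⊢
      simp [trMat, h2]
    · have h5 : ¬ (φ ⟨(i, j), hij⟩).1.isLeft := by simpa using h3
      rw [h4] at h2
      simp only [h5] at h2 ⊢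
      simp [trMat, h2]

theorem result (n : ℕ) (hn : 1 ≤ n) :
    IsLeast {k | Covers n k} (2 * n + 1 - Nat.sqrt (2 * n ^ 2 + 2 * n + 1)) := by
  set u := Nat.sqrt (2 * n ^ 2 + 2 * n + 1) with hu
  have h1 : u * u ≤ 2 * n ^ 2 + 2 * n + 1 := Nat.sqrt_le _
  have h2 : u ≤ 2 * n + 1 := by nlinarith
  constructor
  · have := upper n u ((2 * n + 1 - u + 1) / 2) ((2 * n + 1 - u) / 2) (by nlinarith) (by omega)
      (by omega)
    have e : (2 * n + 1 - u + 1) / 2 + (2 * n + 1 - u) / 2 = 2 * n + 1 - u := by omega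
    rwa [e] at this
  · intro k hk
    obtain ⟨a, b, hab, h⟩ := lower hk
    by_contra hlt
    have hk1 : 1 ≤ k := by
      have := h 0 n 1 (by omega) hn
      rcases Nat.eq_zero_or_pos k with h0 | h0
      · have ha : a = 0 := by omega
        have hb : b = 0 := by omega
        subst ha hb
        omega
      · exact h0
    obtain ⟨s, hs⟩ : ∃ s, s + k = 2 * n + 1 := ⟨2 * n + 1 - k, by omega⟩
    have h3 : 2 * n ^ 2 + 2 * n + 1 < s * s := by
      have : u < s := by omega
      exact Nat.sqrt_lt.1 this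
    have h4 : n < s := by nlinarith
    obtain ⟨t, rfl⟩ : ∃ t, s = n + t := ⟨s - n, by omega⟩
    obtain ⟨r, hr⟩ : ∃ r, r = (n + t) / 2 := ⟨_, rfl⟩
    obtain ⟨c, hc⟩ : ∃ c, c + r = n + t := ⟨n + t - r, by omega⟩
    have e1 := h (n - c) c t (by omega) (by omega)
    have e2 := h (n - r) r t (by omega) (by omega)
    rw [show n - c + t = r by omega] at e1
    rw [show n - r + t = c by omega] at e2
    have e3 : (a + b) * (c + r) = k * (n + t) := by rw [hab, hc]
    have e4 : (n + t) * (n + t) ≤ 4 * r * c + 1 := by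
      rw [← hc]
      have : c = r ∨ c = r + 1 := by omega
      rcases this with rfl | rfl <;> nlinarith
    have e5 : t + k = n + 1 := by omega
    have e6 : k * (n + t) + t * (n + t) = (n + 1) * (n + t) := by rw [← e5]; ring
    nlinarith

end Pool.Agent.Results.MP_88b6d1_co.Exact
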